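import Pool.Agent.H69.GN.Stm

/-! Crew GN, part UNQ: the pair `(m, U)` is determined by the isomorphism class of `ℤ/m ⋊ U`. -/

set_option autoImplicit false

namespace Pool.Agent.H26.GN

open Pool.Agent.H69.GN SemidirectProduct

theorem act_apply (m : ℕ) (U : Subgroup (ZMod m)ˣ) (u : U) (x : Multiplicative (ZMod m)) :
    act m U u x = Multiplicative.ofAdd (((u : (ZMod m)ˣ) : ZMod m) * Multiplicative.toAdd x) :=
  rfl

/-- the normal subgroup -/
def NN (m : ℕ) (U : Subgroup (ZMod m)ˣ) : Subgroup (SD m U) :=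
  (inl : Multiplicative (ZMod m) →* SD m U).range

theorem NN_normal (m : ℕ) (U : Subgroup (ZMod m)ˣ) : (NN m U).Normal := by
  unfold NN
  rw [range_inl_eq_ker_rightHom]
  infer_instance

theorem NN_cyclic (m : ℕ) (U : Subgroup (ZMod m)ˣ) : IsCyclic (NN m U) :=
  isCyclic_of_surjective (inl : Multiplicative (ZMod m) →* SD m U).rangeRestrict
    (MonoidHom.rangeRestrict_surjective _)

theorem NN_card (m : ℕ) (U : Subgroup (ZMod m)ˣ) : Nat.card (NN m U) = m := by
  have h : Nat.card (NN m U) = Nat.card (Multiplicative (ZMod m)) :=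
    Nat.card_congr (MonoidHom.ofInjective
      (f := (inl : Multiplicative (ZMod m) →* SD m U)) inl_injective).toEquiv.symm
  rw [h]
  exact Nat.card_zmod m

theorem conj_inl (m : ℕ) (U : Subgroup (ZMod m)ˣ) (g : SD m U) (x : Multiplicative (ZMod m)) :
    g * inl x * g⁻¹ = inl (act m U g.right x) := by
  have h : g = inl g.left * inr g.right := (inl_left_mul_inr_right g).symm
  rw [inl_aut]
  conv_lhs => rw [h]
  rw [mul_inv_rev]
  have h2 : (inr g.right : SD m U) * inl x * inr g.right⁻¹ = inl (act m U g.right x) :=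
    (inl_aut _ _).symm
  calc (inl g.left * inr g.right : SD m U) * inl x * ((inr g.right)⁻¹ * (inl g.left)⁻¹)
      = inl g.left * (inr g.right * inl x * inr g.right⁻¹) * (inl g.left)⁻¹ := by
        rw [map_inv]; group
    _ = inl g.left * inl (act m U g.right x) * (inl g.left)⁻¹ := by rw [h2]
    _ = inl (act m U g.right x) := by
        rw [← map_mul, ← map_inv, ← map_mul]
        congr 1
        rw [mul_comm g.left, mul_assoc, mul_inv_cancel, mul_one]
    _ = inr g.right * inl x * inr g.right⁻¹ := h2.symm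

theorem NN_cent (m : ℕ) (U : Subgroup (ZMod m)ˣ) :
    Subgroup.centralizer (NN m U : Set (SD m U)) ≤ NN m U := by
  intro g hg
  rw [Subgroup.mem_centralizer_iff] at hg
  have h1 := hg (inl (Multiplicative.ofAdd (1 : ZMod m))) ⟨_, rfl⟩
  have h2 := conj_inl m U g (Multiplicative.ofAdd (1 : ZMod m))
  rw [← h1, mul_inv_cancel_right] at h2
  have h3 := inl_injective h2
  rw [act_apply] at h3
  have h4 : (1 : ZMod m) = ((g.right : (ZMod m)ˣ) : ZMod m) * 1 := by
    simpa using congrArg Multiplicative.toAdd h3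
  have h5 : g.right = 1 := by
    apply Subtype.ext
    apply Units.ext
    rw [mul_one] at h4
    exact h4.symm
  refine ⟨g.left, ?_⟩
  have h6 := inl_left_mul_inr_right g
  rw [h5, map_one, mul_one] at h6
  exact h6

theorem le_of (m : ℕ) [NeZero m] (U U' : Subgroup (ZMod m)ˣ) (e : SD m U ≃* SD m U')
    (h : (NN m U).map e.toMonoidHom = NN m U') : U ≤ U' := by
  intro u hu
  set k : ℕ := ((u : (ZMod m)ˣ) : ZMod m).val with hk
  have hkc : ((k : ℕ) : ZMod m) = (u : ZMod m) := by rw [hk]; exact ZMod.natCast_zmod_val _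
  -- conjugation in `SD m U`
  have h1 : ∀ x : Multiplicative (ZMod m),
      (inr (⟨u, hu⟩ : U) : SD m U) * inl x * (inr (⟨u, hu⟩ : U))⁻¹ = (inl x) ^ k := by
    intro x
    rw [← map_inv, ← inl_aut, ← map_pow]
    congr 1
    rw [act_apply]
    show Multiplicative.ofAdd ((u : ZMod m) * Multiplicative.toAdd x) = x ^ k
    rw [← hkc, ← nsmul_eq_mul, ofAdd_nsmul, ofAdd_toAdd]
  obtain ⟨y, hy⟩ : ∃ y : SD m U, y ∈ NN m U ∧
      e y = inl (Multiplicative.ofAdd (1 : ZMod m)) := by
    have hm : (inl (Multiplicative.ofAdd (1 : ZMod m)) : SD m U') ∈ NN m U' := ⟨_, rfl⟩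
    rw [← h] at hm
    obtain ⟨y, hy, hy2⟩ := hm
    exact ⟨y, hy, hy2⟩
  obtain ⟨⟨x, rfl⟩, hy2⟩ := hy
  have h2 := congrArg e (h1 x)
  rw [map_mul, map_mul, map_inv, map_pow, hy2, conj_inl, ← map_pow] at h2
  have h3 := inl_injective h2
  rw [act_apply] at h3
  have h4 : (((e (inr (⟨u, hu⟩ : U))).right : (ZMod m)ˣ) : ZMod m) = (k : ZMod m) := by
    have := congrArg Multiplicative.toAdd h3
    simpa using this
  have h5 : ((e (inr (⟨u, hu⟩ : U))).right : (ZMod m)ˣ) = u := by
    apply Units.ext
    rw [h4, hkc]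
  rw [← h5]
  exact (e (inr (⟨u, hu⟩ : U))).right.2

theorem unq (hC : S_CEN) : S_UNQ := by
  rintro m m' U U' hm hm' hsq hcard ⟨e⟩
  have : NeZero m := ⟨hm.ne'⟩
  have : NeZero m' := ⟨hm'.ne'⟩
  have : Finite (Multiplicative (ZMod m')) := inferInstanceAs (Finite (ZMod m'))
  have : Finite (SD m' U') := Finite.of_equiv _ (equivProd (φ := act m' U')).symm
  have hc : Nat.card (SD m' U') = m' * Nat.card U' := by
    rw [SemidirectProduct.card]
    congr 1
    exact Nat.card_zmod m'
  have hmap : (NN m U).map e.toMonoidHom = NN m' U' := by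
    apply hC (SD m' U') (by rw [hc, ← hcard]; exact hsq)
    · exact (NN_normal m U).map _ e.surjective
    · have := NN_cyclic m U
      exact isCyclic_of_surjective (e.toMonoidHom.subgroupMap (NN m U))
        (e.toMonoidHom.subgroupMap_surjective _)
    · intro g hg
      refine ⟨e.symm g, NN_cent m U ?_, e.apply_symm_apply g⟩
      rw [Subgroup.mem_centralizer_iff] at hg ⊢
      intro x hx
      have := hg (e x) ⟨x, hx, rfl⟩
      apply e.injective
      rw [map_mul, map_mul, e.apply_symm_apply]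
      exact this
    · exact NN_normal m' U'
    · exact NN_cyclic m' U'
    · exact NN_cent m' U'
  have hmm : m = m' := by
    rw [← NN_card m U, ← NN_card m' U', ← hmap]
    exact Nat.card_congr ((NN m U).equivMapOfInjective e.toMonoidHom e.injective).toEquiv
  subst hmm
  have h1 : U ≤ U' := le_of m U U' e hmap
  have h2 : U' ≤ U := by
    apply le_of m U' U e.symm
    rw [← hmap, Subgroup.map_map]
    have : (e.symm.toMonoidHom.comp e.toMonoidHom) = MonoidHom.id _ := by
      ext x <;> simp
    rw [this, Subgroup.map_id]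
  rw [le_antisymm h1 h2]

end Pool.Agent.H26.GN
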